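import Mathlib
import Pool.Prelude.Def_F_79fae1ed

/-!
MP_56e989_nt, block S: the case `n ≤ t ^ (3/2)` (Legendre product argument).
-/

set_option autoImplicit false

open N298f9e75

namespace EG.S

theorem sc_mul (t : ℕ) {a b : ℕ} (ha : a ≠ 0) (hb : b ≠ 0) :
    smoothComponent t (a * b) = smoothComponent t a * smoothComponent t b := by
  unfold smoothComponent
  rw [((Nat.perm_primeFactorsList_mul ha hb).filter _).prod_eq, List.filter_append,
    List.prod_append]

theorem sc_dvd_self (t m : ℕ) (hm : m ≠ 0) : smoothComponent t m ∣ m := by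
  unfold smoothComponent
  conv_rhs => rw [← Nat.prod_primeFactorsList hm]
  exact (List.filter_sublist).prod_dvd_prod

theorem sc_eq_self {t m : ℕ} (hm : m ≠ 0) (h : ∀ p, p.Prime → p ∣ m → p < t) :
    smoothComponent t m = m := by
  unfold smoothComponent
  rw [List.filter_eq_self.2, Nat.prod_primeFactorsList hm]
  intro p hp
  have := Nat.mem_primeFactorsList hm |>.1 hp
  simpa using h p this.1 this.2

theorem sc_dvd {t a b : ℕ} (hb : b ≠ 0) (h : a ∣ b) :
    smoothComponent t a ∣ smoothComponent t b := by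
  obtain ⟨c, rfl⟩ := h
  have ha : a ≠ 0 := fun h => hb (by simp [h])
  have hc : c ≠ 0 := fun h => hb (by simp [h])
  rw [sc_mul t ha hc]
  exact dvd_mul_right _ _

theorem sc_one (t : ℕ) : smoothComponent t 1 = 1 := by
  simp [smoothComponent]

theorem sc_prod (t : ℕ) (s : Finset ℕ) (g : ℕ → ℕ) (h : ∀ i ∈ s, g i ≠ 0) :
    smoothComponent t (∏ i ∈ s, g i) = ∏ i ∈ s, smoothComponent t (g i) := by
  classical
  induction s using Finset.induction_on with
  | empty => simp [sc_one]
  | insert a s ha ih =>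
    rw [Finset.prod_insert ha, Finset.prod_insert ha, sc_mul t (h a (Finset.mem_insert_self _ _))
      (Finset.prod_ne_zero_iff.2 fun i hi => h i (Finset.mem_insert_of_mem hi)),
      ih fun i hi => h i (Finset.mem_insert_of_mem hi)]

/-- if the component is not everything then it is at most `m / t` -/
theorem sc_mul_le {t m : ℕ} (hm : m ≠ 0) (h : smoothComponent t m ≠ m) :
    smoothComponent t m * t ≤ m := by
  have h1 : ∃ p, p.Prime ∧ p ∣ m ∧ t ≤ p := by
    by_contra hc
    push Not at hc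
    exact h (sc_eq_self hm fun p hp hpm => hc p hp hpm)
  obtain ⟨p, hp, ⟨c, rfl⟩, htp⟩ := h1
  have hc : c ≠ 0 := fun h => hm (by simp [h])
  have h2 : smoothComponent t p = 1 := by
    unfold smoothComponent
    rw [Nat.primeFactorsList_prime hp]
    simp [htp]
  rw [sc_mul t hp.ne_zero hc, h2, one_mul, mul_comm p c]
  exact Nat.mul_le_mul (Nat.le_of_dvd (Nat.pos_of_ne_zero hc) (sc_dvd_self t c hc)) htp

theorem pow_le_three (t : ℕ) : t ^ t ≤ 3 ^ t * t.factorial := by
  have h1 := Real.pow_div_factorial_le_exp (t : ℝ) (by positivity) t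
  have h2 : Real.exp (t : ℝ) ≤ 3 ^ t := by
    have h3 : Real.exp (t : ℝ) = Real.exp 1 ^ t := by
      rw [← Real.exp_nat_mul, mul_one]
    rw [h3]
    exact pow_le_pow_left₀ (Real.exp_pos _).le (by linarith [Real.exp_one_lt_d9]) t
  have h4 : (0 : ℝ) < t.factorial := by exact_mod_cast t.factorial_pos
  rw [div_le_iff₀ h4] at h1
  have h5 : (t : ℝ) ^ t ≤ 3 ^ t * t.factorial := h1.trans (mul_le_mul_of_nonneg_right h2 h4.le)
  exact_mod_cast h5

theorem fact_dvd (n t : ℕ) (ht : 0 < t) :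
    (t - 1).factorial ∣ ∏ i ∈ Finset.Icc (n + 1) (n + t), smoothComponent t i := by
  have h0 : ∀ i ∈ Finset.Icc (n + 1) (n + t), i ≠ 0 := by
    intro i hi
    rw [Finset.mem_Icc] at hi
    omega
  rw [← sc_prod t _ (fun i => i) h0]
  have h1 : smoothComponent t (t - 1).factorial = (t - 1).factorial := by
    refine sc_eq_self (Nat.factorial_ne_zero _) fun p hp hpm => ?_
    have := (hp.dvd_factorial).1 hpm
    omega
  rw [← h1]
  refine sc_dvd (Finset.prod_ne_zero_iff.2 h0) ?_
  have h2 : ∏ i ∈ Finset.Icc (n + 1) (n + t), i = (n + 1).ascFactorial t := by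
    rw [Nat.ascFactorial_eq_prod_range]
    have : Finset.Icc (n + 1) (n + t) = (Finset.range t).image (fun i => n + 1 + i) := by
      ext x
      simp only [Finset.mem_Icc, Finset.mem_image, Finset.mem_range]
      constructor
      · rintro ⟨h1, h2⟩
        exact ⟨x - (n + 1), by omega, by omega⟩
      · rintro ⟨i, hi, rfl⟩
        omega
    rw [this, Finset.prod_image]
    intro a _ b _ h
    exact Nat.add_left_cancel h
  rw [h2]
  exact (Nat.factorial_dvd_factorial (Nat.sub_le t 1)).trans (Nat.factorial_dvd_ascFactorial _ _)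

end EG.S

open EG.S in
theorem EG.small_case : ∃ T : ℕ, ∀ n t : ℕ, T ≤ t → n ^ 2 ≤ t ^ 3 → t ≤ 8 * f n t := by
  classical
  refine ⟨1297, fun n t ht hn => ?_⟩
  by_contra hc
  push Not at hc
  set I := Finset.Icc (n + 1) (n + t) with hI
  set X := I.filter (fun m => smoothComponent t m = m) with hX
  have hXf : X.card ≤ f n t := by
    unfold f
    refine Finset.card_le_card_of_injOn id ?_ (fun a _ b _ h => h)
    intro m hm
    have hm' := Finset.mem_filter.1 (Finset.mem_coe.1 hm)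
    rw [Finset.mem_coe, Finset.mem_image]
    exact ⟨m, hm'.1, hm'.2⟩
  have hIc : I.card = t := by rw [hI, Nat.card_Icc]; omega
  have hb1 : (n + t) ^ 2 ≤ 4 * t ^ 3 := by nlinarith [sq_nonneg ((n : ℤ) - t), sq_nonneg (t : ℤ)]
  have hm0 : ∀ m ∈ I, m ≠ 0 ∧ m ≤ n + t := by
    intro m hm
    rw [hI, Finset.mem_Icc] at hm
    omega
  have hb2 : ∀ m ∈ I \ X, smoothComponent t m ^ 2 ≤ 4 * t := by
    intro m hm
    rw [Finset.mem_sdiff, hX, Finset.mem_filter, not_and] at hm
    have h1 := sc_mul_le (hm0 m hm.1).1 (hm.2 hm.1)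
    have h2 : (smoothComponent t m * t) ^ 2 ≤ 4 * t ^ 3 :=
      (Nat.pow_le_pow_left (h1.trans (hm0 m hm.1).2) 2).trans hb1
    have h3 : smoothComponent t m ^ 2 * t ^ 2 ≤ (4 * t) * t ^ 2 := by
      calc _ = (smoothComponent t m * t) ^ 2 := by ring
        _ ≤ 4 * t ^ 3 := h2
        _ = _ := by ring
    exact Nat.le_of_mul_le_mul_right h3 (by positivity)
  have hb3 : ∀ m ∈ X, smoothComponent t m ^ 2 ≤ 4 * t ^ 3 := by
    intro m hm
    rw [hX, Finset.mem_filter] at hm
    rw [hm.2]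
    exact (Nat.pow_le_pow_left (hm0 m hm.1).2 2).trans hb1
  have h1 : (t - 1).factorial ^ 2 ≤ (4 * t ^ 3) ^ X.card * (4 * t) ^ (I \ X).card := by
    have h2 : (t - 1).factorial ≤ ∏ i ∈ I, smoothComponent t i := by
      refine Nat.le_of_dvd (Nat.pos_of_ne_zero (Finset.prod_ne_zero_iff.2 fun i hi h => ?_))
        (fact_dvd n t (by omega))
      have h3 := sc_dvd_self t i (hm0 i hi).1
      rw [h] at h3
      exact (hm0 i hi).1 (zero_dvd_iff.1 h3)
    calc _ ≤ (∏ i ∈ I, smoothComponent t i) ^ 2 := Nat.pow_le_pow_left h2 2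
      _ = ∏ i ∈ I, smoothComponent t i ^ 2 := (Finset.prod_pow _ _ _).symm
      _ = (∏ i ∈ X, smoothComponent t i ^ 2) * ∏ i ∈ I \ X, smoothComponent t i ^ 2 := by
          rw [mul_comm, Finset.prod_sdiff (Finset.filter_subset _ _)]
      _ ≤ _ := Nat.mul_le_mul (Finset.prod_le_pow_card _ _ _ hb3)
          (Finset.prod_le_pow_card _ _ _ hb2)
  have hXI : (I \ X).card + X.card = t := by
    rw [Finset.card_sdiff_add_card_eq_card (Finset.filter_subset _ _), hIc]
  set x := X.card with hx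
  have h2 : (4 * t ^ 3) ^ x * (4 * t) ^ (I \ X).card = 4 ^ t * t ^ (t + 2 * x) := by
    rw [mul_pow, mul_pow, ← pow_mul]
    have e1 : 4 ^ t = 4 ^ x * 4 ^ (I \ X).card := by rw [← pow_add]; congr 1; omega
    have e2 : t ^ (t + 2 * x) = t ^ (3 * x) * t ^ (I \ X).card := by
      rw [← pow_add]; congr 1; omega
    rw [e1, e2]
    ring
  rw [h2] at h1
  have h3 : t.factorial = t * (t - 1).factorial := by
    rw [Nat.mul_factorial_pred (by omega)]
  have h4 : (t ^ t) ^ 2 ≤ 36 ^ t * t ^ (t + 2 * x + 2) := by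
    calc (t ^ t) ^ 2 ≤ (3 ^ t * t.factorial) ^ 2 := Nat.pow_le_pow_left (pow_le_three t) 2
      _ = 9 ^ t * t ^ 2 * (t - 1).factorial ^ 2 := by
          rw [h3, mul_pow, mul_pow, ← pow_mul, mul_comm t 2, pow_mul, ← mul_assoc]
          norm_num
      _ ≤ 9 ^ t * t ^ 2 * (4 ^ t * t ^ (t + 2 * x)) := Nat.mul_le_mul_left _ h1
      _ = (9 ^ t * 4 ^ t) * t ^ (t + 2 * x + 2) := by ring
      _ = _ := by
          rw [← mul_pow]
          norm_num
  have h5 : t ^ t ≤ 36 ^ t * t ^ (2 * x + 2) := by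
    have h6 : t ^ t * t ^ t ≤ (36 ^ t * t ^ (2 * x + 2)) * t ^ t := by
      calc _ = (t ^ t) ^ 2 := by ring
        _ ≤ _ := h4
        _ = _ := by rw [show t + 2 * x + 2 = (2 * x + 2) + t by ring, pow_add, mul_assoc]
    exact Nat.le_of_mul_le_mul_right h6 (by positivity)
  have h6 : (t ^ t) * (t ^ t) ≤ 1296 ^ t * t ^ t := by
    calc (t ^ t) * (t ^ t) ≤ (36 ^ t * t ^ (2 * x + 2)) * (36 ^ t * t ^ (2 * x + 2)) :=
          Nat.mul_le_mul h5 h5
      _ = (36 * 36) ^ t * t ^ ((2 * x + 2) + (2 * x + 2)) := by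
          rw [mul_pow, pow_add]; ring
      _ ≤ (36 * 36) ^ t * t ^ t := Nat.mul_le_mul_left _
          (Nat.pow_le_pow_right (by omega) (by omega))
      _ = _ := by norm_num
  have h7 : t ^ t ≤ 1296 ^ t := Nat.le_of_mul_le_mul_right h6 (by positivity)
  have h8 : t ≤ 1296 := (Nat.pow_le_pow_iff_left (by omega)).1 h7
  omega
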